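import Pool.Agent.W567.ZonIter
import Pool.Agent.W567.Spencer2
import Pool.Agent.W555.ZL

/-!
# Vector balancing in zonotopes

`vb(K, K) ≤ C √d` for zonotopes `K ⊆ ℝ^d`: a zonotope is within a factor `3/2` of a zonotope with
`O(d)` segments, i.e. of a linear image of a cube of dimension `O(d)`, and in the cube Spencer's
theorem applies (after the usual reduction to at most as many vectors as coordinates).
-/

set_option autoImplicit false

open scoped RealInnerProductSpace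

namespace Pool.Agent.Q157.VB

/-- Euclidean space -/
abbrev E (d : ℕ) : Type := EuclideanSpace ℝ (Fin d)

/-- inclusion of zonotopes from the inequality between the support functions -/
theorem incl {d m N : ℕ} (u : Fin m → E d) (v : Fin N → E d)
    (h : ∀ x : E d, ∑ j, |⟪u j, x⟫| ≤ ∑ k, |⟪v k, x⟫|) (t : Fin m → ℝ) (ht : ∀ j, |t j| ≤ 1) :
    ∃ s : Fin N → ℝ, (∀ k, |s k| ≤ 1) ∧ ∑ j, t j • u j = ∑ k, s k • v k := by
  set L : (Fin N → ℝ) →ₗ[ℝ] E d := Fintype.linearCombination ℝ v with hL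
  have hLa : ∀ s, L s = ∑ k, s k • v k := fun s => Fintype.linearCombination_apply ℝ v s
  set Q : Set (Fin N → ℝ) := Set.Icc (-1) 1 with hQ
  have hLc : Continuous L := L.continuous_of_finiteDimensional
  have hc : IsCompact (L '' Q) := isCompact_Icc.image hLc
  have hconv : Convex ℝ (L '' Q) := (convex_Icc _ _).linear_image L
  by_cases hy : ∑ j, t j • u j ∈ L '' Q
  · obtain ⟨s, hs, hs2⟩ := hy
    refine ⟨s, fun k => abs_le.2 ⟨hs.1 k, hs.2 k⟩, ?_⟩
    rw [← hs2, hLa]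
  · exfalso
    obtain ⟨f, r, h1, h2⟩ := geometric_hahn_banach_closed_point hconv hc.isClosed hy
    set z : E d := (InnerProductSpace.toDual ℝ (E d)).symm f with hz
    have hf : ∀ y, f y = ⟪y, z⟫ := by
      intro y
      rw [real_inner_comm, hz, InnerProductSpace.toDual_symm_apply]
    have h3 := h1 (L fun k => SignType.sign ⟪v k, z⟫) ⟨_, ⟨fun k => ?_, fun k => ?_⟩, rfl⟩
    · rw [hf, hLa, sum_inner] at h3
      rw [hf, sum_inner] at h2
      have h4 : ∑ j, ⟪t j • u j, z⟫ ≤ ∑ j, |⟪u j, z⟫| := by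
        refine Finset.sum_le_sum fun j _ => ?_
        rw [real_inner_smul_left]
        refine (le_abs_self _).trans ?_
        rw [abs_mul]
        exact mul_le_of_le_one_left (abs_nonneg _) (ht j)
      have h5 : ∑ k, ⟪((SignType.sign ⟪v k, z⟫ : SignType) : ℝ) • v k, z⟫ = ∑ k, |⟪v k, z⟫| := by
        refine Finset.sum_congr rfl fun k _ => ?_
        rw [real_inner_smul_left, mul_comm, self_mul_sign]
      rw [h5] at h3
      have := h z
      linarith
    · rcases lt_trichotomy ⟪v k, z⟫ 0 with hh | hh | hh <;> simp [hh]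
    · rcases lt_trichotomy ⟪v k, z⟫ 0 with hh | hh | hh <;> simp [hh]

/-- Spencer's theorem for any number of vectors in the cube -/
theorem cube : ∃ C : ℝ, 0 < C ∧ ∀ (N n : ℕ) (w : Fin n → Fin N → ℝ), (∀ i k, |w i k| ≤ 1) →
    ∃ ε : Fin n → ℝ, (∀ i, ε i = 1 ∨ ε i = -1) ∧ ∀ k, |∑ i, ε i * w i k| ≤ C * √(N : ℝ) + 1 := by
  obtain ⟨C, hC, h⟩ := Pool.Agent.W567.Spencer.full_col'
  refine ⟨2 * C, by linarith, fun N n w hw => ?_⟩
  obtain ⟨x, hx1, hx2, hx3⟩ := Pool.Agent.W567.Spencer.few_fractional N n w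
  obtain ⟨ε, hε, hb⟩ := Pool.Agent.W567.Spencer.lindisc N (C * √(N : ℝ))
    (fun J _ _ f hJ hf => h N J f hJ hf) (by positivity) (Fin n) w hw x hx1 hx3
  refine ⟨ε, hε, fun k => ?_⟩
  have h1 : ∑ i, x i * w i k = 0 := by
    have := congrFun hx2 k
    simpa using this
  have h2 := hb k
  have h3 : ∑ i, (ε i - x i) * w i k = ∑ i, ε i * w i k := by
    simp only [sub_mul, Finset.sum_sub_distrib, h1, sub_zero]
  rw [h3] at h2
  linarith

theorem main : ∃ C : ℝ, 0 < C ∧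
      ∀ (d m : ℕ) (v : Fin m → E d) (n : ℕ) (u : Fin n → E d),
        (∀ i, ∃ t : Fin m → ℝ, (∀ j, |t j| ≤ 1) ∧ u i = ∑ j, t j • v j) →
        ∃ ε : Fin n → ℝ, (∀ i, ε i = 1 ∨ ε i = -1) ∧
          ∃ s : Fin m → ℝ, (∀ j, |s j| ≤ 1) ∧
            ∑ i, ε i • u i = (C * Real.sqrt d) • ∑ j, s j • v j := by
  obtain ⟨C1, hC1, h1⟩ := Pool.Agent.W555.ZL.vec Pool.Agent.W567.ZonIter.iter
  obtain ⟨C0, hC0, h0⟩ := cube
  refine ⟨3 / 2 * (C0 * √(4 * C1) + 1), by positivity, fun d m v n u hu => ?_⟩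
  rcases Nat.eq_zero_or_pos d with hd | hd
  · subst hd
    refine ⟨fun _ => 1, fun _ => Or.inl rfl, fun _ => 0, fun _ => by simp, ?_⟩
    exact Subsingleton.elim _ _
  obtain ⟨N, b, hN, hb⟩ := h1 d m v (1 / 2) (by norm_num) le_rfl
  -- the vectors in the coordinates of the cube
  have k1 : ∀ i, ∃ w : Fin N → ℝ, (∀ k, |w k| ≤ 1) ∧ u i = ∑ k, w k • ((3 / 2 : ℝ) • b k) := by
    intro i
    obtain ⟨t, ht, hut⟩ := hu i
    obtain ⟨s, hs, hs2⟩ := incl v (fun k => (3 / 2 : ℝ) • b k) (fun x => by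
      have := (hb x).2
      simp only [real_inner_smul_left, abs_mul, ← Finset.mul_sum]
      rw [abs_of_pos (by norm_num : (0 : ℝ) < 3 / 2)]
      linarith) t ht
    exact ⟨s, hs, by rw [hut, hs2]⟩
  choose w hw hw2 using k1
  obtain ⟨ε, hε, hεb⟩ := h0 N n w hw
  refine ⟨ε, hε, ?_⟩
  set D : ℝ := C0 * √(N : ℝ) + 1 with hD
  have hDp : 0 < D := by positivity
  -- the signed sum
  have k2 : ∑ i, ε i • u i = (3 / 2 * D) • ∑ k, ((∑ i, ε i * w i k) / D) • b k := by
    rw [Finset.smul_sum]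
    simp only [hw2]
    simp only [Finset.smul_sum, smul_smul]
    rw [Finset.sum_comm]
    refine Finset.sum_congr rfl fun k _ => ?_
    rw [← Finset.sum_smul]
    congr 1
    rw [show 3 / 2 * D * ((∑ i, ε i * w i k) / D) = 3 / 2 * (∑ i, ε i * w i k) by field_simp]
    rw [Finset.mul_sum]
    refine Finset.sum_congr rfl fun i _ => ?_
    ring
  obtain ⟨s, hs, hs2⟩ := incl b v (fun x => (hb x).1) (fun k => (∑ i, ε i * w i k) / D) (fun k => by
    rw [abs_div, abs_of_pos hDp, div_le_one hDp]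
    exact hεb k)
  rw [k2, hs2]
  -- the factor
  have hd1 : (1 : ℝ) ≤ √(d : ℝ) := by
    rw [Real.one_le_sqrt]
    exact_mod_cast hd
  have hNd : √(N : ℝ) ≤ √(4 * C1) * √(d : ℝ) := by
    rw [← Real.sqrt_mul (by positivity)]
    apply Real.sqrt_le_sqrt
    have : C1 * (d : ℝ) / (1 / 2) ^ 2 = 4 * C1 * d := by ring
    rw [this] at hN
    exact hN
  have hfac : 3 / 2 * D ≤ 3 / 2 * (C0 * √(4 * C1) + 1) * √(d : ℝ) := by
    rw [hD]
    have := mul_le_mul_of_nonneg_left hNd hC0.le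
    nlinarith
  have hCp : 0 < 3 / 2 * (C0 * √(4 * C1) + 1) * √(d : ℝ) := by positivity
  refine ⟨fun j => (3 / 2 * D) / (3 / 2 * (C0 * √(4 * C1) + 1) * √(d : ℝ)) * s j, fun j => ?_, ?_⟩
  · rw [abs_mul, abs_of_nonneg (by positivity)]
    have hq : (3 / 2 * D) / (3 / 2 * (C0 * √(4 * C1) + 1) * √(d : ℝ)) ≤ 1 := by
      rw [div_le_one hCp]
      exact hfac
    have := mul_le_mul hq (hs j) (abs_nonneg _) zero_le_one
    simpa using this
  · rw [Finset.smul_sum, Finset.smul_sum]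
    refine Finset.sum_congr rfl fun j _ => ?_
    rw [smul_smul, smul_smul]
    congr 1
    field_simp

end Pool.Agent.Q157.VB
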